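import Mathlib

set_option autoImplicit false

namespace Pool.Agent.H.MP_150402_gt

open Set Filter TopologicalSpace

section
variable (Y Z : Type) [TopologicalSpace Y] [TopologicalSpace Z]

def OZ : Set (Set Y) := {W | ∃ (f : C(Y, Z)) (U : Set Z), IsOpen U ∧ W = f ⁻¹' U}

def ZScott (H : Set (Set Y)) : Prop :=
  (∀ W ∈ H, IsOpen W) ∧ (∀ W ∈ H, W ∈ OZ Y Z → ∀ V, IsOpen V → W ⊆ V → V ∈ H) ∧
    ∀ 𝒞 ⊆ OZ Y Z, ⋃₀ 𝒞 ∈ H → ∃ ℱ ⊆ 𝒞, ℱ.Finite ∧ ⋃₀ ℱ ∈ H

abbrev top : TopologicalSpace C(Y, Z) :=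
  generateFrom {S | ∃ H U, ZScott Y Z H ∧ IsOpen U ∧ S = {f : C(Y, Z) | f ⁻¹' U ∈ H}}

end

def Y : Type := Option (ℕ × ℕ)

instance : TopologicalSpace Y where
  IsOpen U := none ∈ U → ∀ᶠ n in atTop, ∀ᶠ m in atTop, some (n, m) ∈ U
  isOpen_univ _ := .of_forall fun _ => .of_forall fun _ => trivial
  isOpen_inter _ _ h h' hz := ((h hz.1).and (h' hz.2)).mono fun _ h => h.1.and h.2
  isOpen_sUnion _ h := fun ⟨U, h1, h2⟩ => (h U h1 h2).mono fun _ h => h.mono fun _ h => ⟨U, h1, h⟩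

lemma clopen {S : Set Y} (h : none ∈ S) (h' : ∀ᶠ n in atTop, ∀ᶠ m in atTop, some (n, m) ∈ S) :
    IsClopen S := ⟨⟨fun h1 => (h1 h).elim⟩, fun _ => h'⟩

noncomputable def chi (S : Set Y) (h : IsClopen S) : C(Y, Bool) :=
  ⟨S.boolIndicator, (continuous_boolIndicator_iff_isClopen S).2 h⟩

lemma mem_OZ {S : Set Y} (h : IsClopen S) : S ∈ OZ Y Bool :=
  ⟨chi S h, {true}, isOpen_discrete _, S.preimage_boolIndicator_true.symm⟩

lemma up {H : Set (Set Y)} (h : ZScott Y Bool H) {W : Set Y} (h1 : W ∈ H) (h2 : IsClopen W)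
    {f : C(Y, Bool)} {U : Set Bool} (h3 : W ⊆ f ⁻¹' U) : f ⁻¹' U ∈ H :=
  h.2.1 _ h1 (mem_OZ h2) _ ((isOpen_discrete U).preimage f.continuous) h3

lemma dir {H : Set (Set Y)} (h : ZScott Y Bool H) {W : ℕ → Set Y} (h1 : Monotone W)
    (h2 : ∀ k, IsClopen (W k)) (h3 : ⋃ k, W k ∈ H) : ∃ k, W k ∈ H := by
  obtain ⟨ℱ, h4, h5, h6⟩ := h.2.2 (range W) (range_subset_iff.2 fun k => mem_OZ (h2 k)) h3
  obtain ⟨k, hk⟩ := ((eventually_all_finite h5).2 fun V hV => (h4 hV).elim fun j hj =>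
    (eventually_ge_atTop j).mono fun k hk => (hj ▸ h1 hk : V ⊆ W k)).exists
  refine ⟨k, h.2.1 _ h6 (mem_OZ ?_) _ (h2 k).2 (sUnion_subset hk)⟩
  rw [sUnion_eq_biUnion]
  exact h5.isClopen_biUnion fun V hV => (h4 hV).elim fun j hj => hj ▸ h2 j

def cut (n : ℕ) (A : Set ℕ) : Set Y := {y | ∀ m ∈ A, y ≠ some (n, m)}

lemma cut_clopen (n : ℕ) (A : Set ℕ) : IsClopen (cut n A) :=
  clopen (fun _ _ => nofun) ((eventually_gt_atTop n).mono fun _ h => .of_forall fun _ _ _ h' =>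
    h.ne' (congrArg Prod.fst (Option.some.inj h')))

noncomputable def g (n : ℕ) (A : Set ℕ) : C(Y, Bool) := chi _ (cut_clopen n A)

lemma g_true {n : ℕ} {A : Set ℕ} {y : Y} : g n A y = true ↔ y ∈ cut n A :=
  (mem_iff_boolIndicator _ _).symm

lemma drink (P : ℕ → Prop) : ∃ k, P k → ∀ j, P j := by
  by_cases h : ∀ j, P j
  exacts [⟨0, fun _ => h⟩, (not_forall.1 h).imp fun _ h h' => (h h').elim]

lemma tendsto_a : Tendsto (fun p : ℕ × ℕ => g p.1 (Iio p.2)) (comap Prod.fst atTop)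
    (@nhds _ (top Y Bool) (.const Y true)) := by
  refine tendsto_nhds_generateFrom_iff.2 ?_
  rintro _ ⟨H, U, h, -, rfl⟩ h1
  by_cases h2 : true ∈ U
  swap
  · exact univ_mem' fun p => up h h1 ((isClopen_discrete U).preimage (map_continuous _))
      fun _ h => (h2 h).elim
  choose k hk using fun n => drink (fun j => g n (Iio j) ⁻¹' U ∈ H)
  have hW (m : ℕ) : IsClopen (⋂ n ≥ m, cut n (Iio (k n))) :=
    clopen (mem_iInter₂.2 fun _ _ _ _ => nofun) (.of_forall fun n =>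
      (eventually_ge_atTop (k n)).mono fun j hj => mem_iInter₂.2 fun a _ b hb e => by
        cases e
        exact hj.not_gt hb)
  obtain ⟨m, hm⟩ := dir h (fun a b h => biInter_subset_biInter_left fun _ h' => h.trans h') hW
    (up h h1 ((isClopen_discrete U).preimage (map_continuous _)) (f := .const Y true) (U := U)
      subset_rfl |> (eq_univ_of_forall fun _ => h2 : (ContinuousMap.const Y true) ⁻¹' U = univ).subst
      |> (eq_univ_of_forall fun y => mem_iUnion.2 (by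
        obtain _ | p := y
        · exact ⟨0, mem_iInter₂.2 fun _ _ _ _ => nofun⟩
        · exact ⟨p.1 + 1, mem_iInter₂.2 fun a h b _ e => by
            cases e
            exact h.not_gt (by simp)⟩)).symm.subst (motive := (· ∈ H)))
  exact mem_comap.2 ⟨_, Ici_mem_atTop m, fun p hp => hk _ (up h hm (hW m) fun y hy =>
    (g_true.2 (mem_iInter₂.1 hy _ hp) ▸ h2 : g _ _ y ∈ U)) _⟩

lemma tendsto_b (n : ℕ) : Tendsto (fun k => g n (Iio k)) atTop
    (@nhds _ (top Y Bool) (g n univ)) := by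
  refine tendsto_nhds_generateFrom_iff.2 ?_
  rintro _ ⟨H, U, h, -, rfl⟩ h1
  have hW (k : ℕ) : IsClopen (g n univ ⁻¹' U ∩ cut n (Ici k)) :=
    ((isClopen_discrete U).preimage (map_continuous _)).inter (cut_clopen _ _)
  obtain ⟨k, hk⟩ := dir h (W := fun k => g n univ ⁻¹' U ∩ cut n (Ici k))
    (fun a b h _ h' => ⟨h'.1, fun m hm => h'.2 m (h.trans hm)⟩) hW (by
      rw [← inter_iUnion, inter_eq_self_of_subset_left fun y _ => mem_iUnion.2 ?_]
      · exact h1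
      obtain _ | p := y
      · exact ⟨0, fun _ _ => nofun⟩
      · exact ⟨p.2 + 1, fun b h e => by
          cases e
          simp at h⟩)
  refine mem_of_superset (Ici_mem_atTop k) fun j hj => up h hk (hW k) fun y hy => ?_
  have : g n (Iio j) y = g n univ y := Bool.eq_iff_iff.2 (g_true.trans (Iff.trans
    ⟨fun h m _ => (lt_or_ge m j).elim (h m) fun h' => hy.2 m (le_trans hj h'),
      fun h m _ => h m trivial⟩ g_true.symm))
  exact (this ▸ hy.1 : g n (Iio j) y ∈ U)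

theorem main : ¬ @RegularSpace _ (top Y Bool) := fun h => by
  let := top Y Bool
  let H : Set (Set Y) := {U | IsOpen U ∧ none ∈ U ∧ ∀ n, ∃ m, some (n, m) ∈ U}
  have hH : ZScott Y Bool H := by
    refine ⟨fun _ h => h.1, fun W h _ V h1 h2 => ⟨h1, h2 h.2.1, fun n => (h.2.2 n).imp fun _ =>
      @h2 _⟩, fun 𝒞 h1 ⟨_, ⟨V, h2, h3⟩, h4⟩ => ?_⟩
    have ho (W) (hW : W ∈ 𝒞) : IsOpen W :=
      (h1 hW).elim fun f ⟨U, h, e⟩ => e ▸ h.preimage f.continuous
    choose m W h5 h6 using h4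
    obtain ⟨a, ha⟩ := eventually_atTop.1 (ho V h2 h3)
    have h7 : insert V (W '' Iio a) ⊆ 𝒞 := insert_subset h2 (image_subset_iff.2 fun n _ => h5 n)
    refine ⟨_, h7, ((finite_Iio a).image W).insert V, isOpen_sUnion fun _ h => ho _ (h7 h),
      ⟨V, Or.inl rfl, h3⟩, fun n => (lt_or_ge n a).elim (fun h => ⟨_, _, Or.inr ⟨n, h, rfl⟩, h6 n⟩)
        fun h => (ha n h).exists.imp fun _ h => ⟨V, Or.inl rfl, h⟩⟩
  obtain ⟨N, h1, h2, h3⟩ := exists_mem_nhds_isClosed_subset (x := ContinuousMap.const Y true)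
    (s := {f | f ⁻¹' {true} ∈ H}) (IsOpen.mem_nhds (GenerateOpen.basic _
      ⟨H, {true}, hH, isOpen_discrete _, rfl⟩)
      ⟨(isOpen_discrete _).preimage (map_continuous _), rfl, fun _ => ⟨0, rfl⟩⟩)
  obtain ⟨t, h4, h5⟩ := mem_comap.1 (tendsto_a h1)
  obtain ⟨n, hn⟩ := Filter.nonempty_of_mem h4
  obtain ⟨m, hm⟩ := (h3 (h2.mem_of_tendsto (tendsto_b n)
    (.of_forall fun k => h5 (a := (n, k)) hn))).2.2 n
  exact g_true.1 hm m trivial rfl

end Pool.Agent.H.MP_150402_gt
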